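import Pool.Agent.N767.EX.FL2

/-!
# Project EX, leaf FL: the number of ideals of rough norm, by the sieve
-/

set_option autoImplicit false

namespace Pool.Agent.N767.EX

open Finset Filter Pool.Agent.H38R2.CG Pool.Agent.N71.EX

lemma exists_J (x : ℝ) (hx : 2 ≤ x) :
    ∃ J : ℕ, ((2 ^ 2 ^ J : ℕ) : ℝ) ≤ x ∧ x < ((2 ^ 2 ^ J : ℕ) : ℝ) ^ 2 := by
  classical
  have h1 : ∃ J : ℕ, x < ((2 ^ 2 ^ J : ℕ) : ℝ) := by
    obtain ⟨n, hn⟩ := exists_nat_gt x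
    refine ⟨n, hn.trans ?_⟩
    have h2 : n < 2 ^ 2 ^ n := (Nat.lt_two_pow_self).trans Nat.lt_two_pow_self
    exact_mod_cast h2
  have h2 := Nat.find_spec h1
  have h3 : Nat.find h1 ≠ 0 := by
    intro h
    rw [h] at h2
    norm_num at h2
    linarith
  obtain ⟨J, hJ⟩ := Nat.exists_eq_succ_of_ne_zero h3
  refine ⟨J, ?_, ?_⟩
  · have := Nat.find_min h1 (m := J) (by omega)
    exact not_lt.1 this
  · rw [hJ] at h2
    have h4 : ((2 ^ 2 ^ (J + 1) : ℕ) : ℝ) = ((2 ^ 2 ^ J : ℕ) : ℝ) ^ 2 := by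
      push_cast
      rw [pow_succ, pow_mul]
    rw [← h4]
    exact h2

lemma VV_ge (D : ℕ) (hD : IsFund D) (z : ℕ) (hz : 1 ≤ z) : (1 / (z : ℝ)) ^ 2 ≤ VV D z := by
  have h1 := prod_primes_ge z hz
  rw [VV_eq]
  calc (1 / (z : ℝ)) ^ 2 ≤ (∏ p ∈ (Finset.Icc 1 z).filter Nat.Prime, (1 - 1 / (p : ℝ))) ^ 2 :=
        pow_le_pow_left₀ (by positivity) h1 2
    _ = ∏ p ∈ (Finset.Icc 1 z).filter Nat.Prime, (1 - 1 / (p : ℝ)) ^ 2 :=
        (Finset.prod_pow _ _ _).symm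
    _ ≤ _ := Finset.prod_le_prod (fun p _ => sq_nonneg _)
        fun p hp => fac_ge D hD p (Finset.mem_filter.1 hp).2

theorem t_FL (hNQ : E_NQ) (hSIE : Pool.Agent.N71.BI.E_SIE) : E_FL := by
  classical
  obtain ⟨C0, hC0, hFL⟩ := Pool.Agent.H20R2.fLem 2
  intro η hη
  obtain ⟨d, C, hd, hC, hN⟩ := hNQ (η / 2) (by positivity)
  obtain ⟨c, hc, hS⟩ := hSIE (d / 8) (by positivity)
  obtain ⟨K, hK⟩ : ∃ K, K = C0 * (C0 + 3) := ⟨_, rfl⟩
  have hK1 : 1 ≤ K := by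
    rw [hK]
    exact Nat.mul_pos (by omega) (by omega)
  have hK0 : (0 : ℝ) < K := by exact_mod_cast hK1
  refine ⟨min (η / (8 * K)) (d / (2 * (K + 3))), lt_min (by positivity) (by positivity), ?_⟩
  intro δ hδ hδ0
  have hδ1 : δ * (8 * K) ≤ η := (le_div_iff₀ (by positivity)).1 (hδ0.trans (min_le_left _ _))
  have hδ2 : δ * (2 * (K + 3)) ≤ d :=
    (le_div_iff₀ (by positivity)).1 (hδ0.trans (min_le_right _ _))
  obtain ⟨Q0, hQ0⟩ : ∃ Q0 : ℕ, Q0 = ∏ p ∈ pr C0, p := ⟨_, rfl⟩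
  have ev : ∀ s : ℝ, 0 < s → ∀ B : ℝ, ∀ᶠ D : ℕ in atTop, B ≤ (D : ℝ) ^ s := fun s hs B =>
    ((tendsto_rpow_atTop hs).comp tendsto_natCast_atTop_atTop).eventually_ge_atTop B
  have hev := ((ev (δ / 2) (by positivity) (C0 + 2)).and
    (ev (η / 4) (by positivity) ((Q0 : ℝ) ^ 2))).and
    (ev (3 * d / 8) (by positivity) (4 * (2 ^ (pr C0).card * C) / c))
  obtain ⟨D₀, hD₀⟩ := eventually_atTop.1 hev
  refine ⟨D₀, fun D hDD hD => ?_⟩
  obtain ⟨⟨ha, hb⟩, hdd⟩ := hD₀ D hDD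
  have hD1 : (1 : ℝ) ≤ D := by exact_mod_cast hD.1.le
  have hDpos : (0 : ℝ) < D := by linarith
  have h2δ : (2 : ℝ) ≤ (D : ℝ) ^ δ := by
    have h1 : (D : ℝ) ^ (δ / 2) ≤ (D : ℝ) ^ δ :=
      Real.rpow_le_rpow_of_exponent_le hD1 (by linarith)
    have h2 : (0 : ℝ) ≤ C0 := Nat.cast_nonneg _
    linarith
  obtain ⟨J, hJ1, hJ2⟩ := exists_J _ h2δ
  obtain ⟨z, hz⟩ : ∃ z : ℕ, z = 2 ^ 2 ^ J := ⟨_, rfl⟩
  rw [← hz] at hJ1 hJ2
  have hzlow : (D : ℝ) ^ (δ / 2) ≤ z := by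
    have h1 : ((D : ℝ) ^ (δ / 2)) ^ 2 < (z : ℝ) ^ 2 := by
      rw [← Real.rpow_natCast ((D : ℝ) ^ (δ / 2)) 2, ← Real.rpow_mul hDpos.le]
      have h2 : δ / 2 * ((2 : ℕ) : ℝ) = δ := by
        push_cast
        ring
      rw [h2]
      exact hJ2
    exact (lt_of_pow_lt_pow_left₀ 2 (Nat.cast_nonneg _) h1).le
  have hzC : (C0 : ℝ) + 2 ≤ z := ha.trans hzlow
  have hzC' : C0 + 2 ≤ z := by exact_mod_cast hzC
  refine ⟨z, by omega, hzlow, hJ1, fun Y hY1 hY2 => ?_⟩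
  have hL : c * (D : ℝ) ^ (-(d / 8)) ≤ Lone D := hS D hD
  have hLpos : 0 ≤ Lone D := le_trans (by positivity) hL
  have hzpos : (0 : ℝ) < z := by
    have : 0 < z := by omega
    exact_mod_cast this
  have hzK : (z : ℝ) ^ K ≤ (D : ℝ) ^ (η / 8) := by
    calc (z : ℝ) ^ K ≤ ((D : ℝ) ^ δ) ^ K := pow_le_pow_left₀ (Nat.cast_nonneg _) hJ1 K
      _ = (D : ℝ) ^ (δ * K) := by
        rw [← Real.rpow_natCast ((D : ℝ) ^ δ) K, ← Real.rpow_mul hDpos.le]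
      _ ≤ _ := Real.rpow_le_rpow_of_exponent_le hD1 (by linarith)
  have hzK3 : (z : ℝ) ^ (K + 3) ≤ (D : ℝ) ^ (d / 2) := by
    calc (z : ℝ) ^ (K + 3) ≤ ((D : ℝ) ^ δ) ^ (K + 3) :=
          pow_le_pow_left₀ (Nat.cast_nonneg _) hJ1 _
      _ = (D : ℝ) ^ (δ * (K + 3)) := by
        rw [← Real.rpow_natCast ((D : ℝ) ^ δ) (K + 3), ← Real.rpow_mul hDpos.le]
        push_cast
        rfl
      _ ≤ _ := Real.rpow_le_rpow_of_exponent_le hD1 (by linarith)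
  have hU : ∀ U : Finset ℕ, (∀ p ∈ U, p.Prime) →
      ∏ p ∈ U, p ≤ (2 ^ 2 ^ J) ^ (C0 * (C0 + 3)) * ∏ p ∈ pr C0, p →
      |∑ m ∈ (Finset.Icc 1 Y).filter (fun m => ∀ p ∈ U, p ∣ m), rr D m -
        Lone D * Y * ∏ p ∈ U, gg D p| ≤ C * (D : ℝ) ^ (-d) * Y := by
    intro U hUp hUq
    rw [← hz, ← hK, ← hQ0] at hUq
    obtain ⟨q, hq⟩ : ∃ q, q = ∏ p ∈ U, p := ⟨_, rfl⟩
    have hqc : (q : ℝ) ≤ (z : ℝ) ^ K * Q0 := by
      rw [hq]
      exact_mod_cast hUq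
    have hq2 : (q : ℝ) ^ 2 ≤ (D : ℝ) ^ (η / 2) := by
      calc (q : ℝ) ^ 2 ≤ ((z : ℝ) ^ K * Q0) ^ 2 := pow_le_pow_left₀ (Nat.cast_nonneg _) hqc 2
        _ = ((z : ℝ) ^ K) ^ 2 * (Q0 : ℝ) ^ 2 := by ring
        _ ≤ ((D : ℝ) ^ (η / 8)) ^ 2 * (D : ℝ) ^ (η / 4) := by gcongr
        _ = (D : ℝ) ^ (η / 2) := by
          rw [← Real.rpow_natCast ((D : ℝ) ^ (η / 8)) 2, ← Real.rpow_mul hDpos.le,
            ← Real.rpow_add hDpos]
          congr 1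
          push_cast
          ring
    have hcond : (D : ℝ) ^ (1 / 4 + η / 2) * (q : ℝ) ^ 2 ≤ Y := by
      calc (D : ℝ) ^ (1 / 4 + η / 2) * (q : ℝ) ^ 2 ≤
            (D : ℝ) ^ (1 / 4 + η / 2) * (D : ℝ) ^ (η / 2) := by gcongr
        _ = (D : ℝ) ^ (1 / 4 + η) := by
          rw [← Real.rpow_add hDpos]
          congr 1
          ring
        _ ≤ Y := hY1
    have h1 := hN D hD q Y (by rw [hq]; exact prod_sqf U hUp) hcond hY2
    rw [hq, Nat.primeFactors_prod hUp] at h1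
    refine le_of_eq_of_le ?_ h1
    refine congrArg abs (congrArg₂ (· - ·) ?_ rfl)
    refine Finset.sum_congr ?_ fun _ _ => rfl
    ext m
    simp only [Finset.mem_filter, prod_dvd_iff U hUp]
  have hs := sieve C0 hFL D hD J Y (by rw [← hz]; omega) hLpos (C * (D : ℝ) ^ (-d) * Y)
    (by positivity) hU
  rw [← hz, ← hK] at hs
  have hV : (1 / (z : ℝ)) ^ 2 ≤ VV D z := VV_ge D hD z (by omega)
  have hV0 : 0 ≤ VV D z := le_trans (sq_nonneg _) hV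
  have hJz : (J : ℝ) + 2 ≤ z := by
    have h1 : J + 1 ≤ 2 ^ J := Nat.lt_two_pow_self
    have h2 : J + 2 ≤ 2 ^ (J + 1) := Nat.lt_two_pow_self
    have h3 : 2 ^ (J + 1) ≤ z := by
      rw [hz]
      exact Nat.pow_le_pow_right (by norm_num) h1
    exact_mod_cast h2.trans h3
  have herr : ((J : ℝ) + 2) * (((z ^ K : ℕ) : ℝ) *
      (2 ^ (pr C0).card * (C * (D : ℝ) ^ (-d) * Y))) ≤ 1 / 4 * (Lone D * VV D z * Y) := by
    have e1 : (z : ℝ) ^ (K + 3) * (2 ^ (pr C0).card * C * (D : ℝ) ^ (-d)) ≤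
        1 / 4 * (c * (D : ℝ) ^ (-(d / 8))) := by
      calc (z : ℝ) ^ (K + 3) * (2 ^ (pr C0).card * C * (D : ℝ) ^ (-d)) ≤
            (D : ℝ) ^ (d / 2) * (2 ^ (pr C0).card * C * (D : ℝ) ^ (-d)) := by gcongr
        _ = (2 ^ (pr C0).card * C) * (D : ℝ) ^ (-(d / 2)) := by
          have : (D : ℝ) ^ (-(d / 2)) = (D : ℝ) ^ (d / 2) * (D : ℝ) ^ (-d) := by
            rw [← Real.rpow_add hDpos]
            congr 1
            ring
          rw [this]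
          ring
        _ ≤ (1 / 4 * (c * (D : ℝ) ^ (3 * d / 8))) * (D : ℝ) ^ (-(d / 2)) := by
          refine mul_le_mul_of_nonneg_right ?_ (by positivity)
          rw [div_le_iff₀ hc] at hdd
          linarith
        _ = _ := by
          have : (D : ℝ) ^ (-(d / 8)) = (D : ℝ) ^ (3 * d / 8) * (D : ℝ) ^ (-(d / 2)) := by
            rw [← Real.rpow_add hDpos]
            congr 1
            ring
          rw [this]
          ring
    have e2 : (z : ℝ) * ((z : ℝ) ^ K * (2 ^ (pr C0).card * (C * (D : ℝ) ^ (-d) * Y))) =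
        (z : ℝ) ^ (K + 3) * (2 ^ (pr C0).card * C * (D : ℝ) ^ (-d)) * ((1 / (z : ℝ)) ^ 2 * Y) := by
      have : (z : ℝ) ^ (K + 3) * (1 / (z : ℝ)) ^ 2 = z * (z : ℝ) ^ K := by
        rw [pow_add]
        field_simp
      linear_combination (-(2 ^ (pr C0).card * C * (D : ℝ) ^ (-d)) * (Y : ℝ)) * this
    push_cast
    calc ((J : ℝ) + 2) * ((z : ℝ) ^ K * (2 ^ (pr C0).card * (C * (D : ℝ) ^ (-d) * Y))) ≤
          (z : ℝ) * ((z : ℝ) ^ K * (2 ^ (pr C0).card * (C * (D : ℝ) ^ (-d) * Y))) :=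
          mul_le_mul_of_nonneg_right hJz (by positivity)
      _ = (z : ℝ) ^ (K + 3) * (2 ^ (pr C0).card * C * (D : ℝ) ^ (-d)) *
          ((1 / (z : ℝ)) ^ 2 * Y) := e2
      _ ≤ (1 / 4 * (c * (D : ℝ) ^ (-(d / 8)))) * (VV D z * Y) :=
          mul_le_mul e1 (mul_le_mul_of_nonneg_right hV (Nat.cast_nonneg _)) (by positivity)
            (by positivity)
      _ ≤ (1 / 4 * Lone D) * (VV D z * Y) :=
          mul_le_mul_of_nonneg_right (by linarith) (by positivity)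
      _ = _ := by ring
  have hM : 0 ≤ Lone D * VV D z * Y := by positivity
  have hhalf : (1 / 2 : ℝ) ^ (C0 + 3) * (Lone D * VV D z * Y) ≤
      1 / 4 * (Lone D * VV D z * Y) := by
    refine mul_le_mul_of_nonneg_right ?_ hM
    calc (1 / 2 : ℝ) ^ (C0 + 3) ≤ (1 / 2 : ℝ) ^ 2 :=
          pow_le_pow_of_le_one (by norm_num) (by norm_num) (by omega)
      _ = 1 / 4 := by norm_num
  have hfin := abs_le.1 (hs.trans (add_le_add hhalf herr))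
  constructor
  · linarith [hfin.1]
  · linarith [hfin.2]

end Pool.Agent.N767.EX
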