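import Pool.Agent.N71.EX.Stm
import Pool.Agent.N38.BI.CNT

/-!
# Project EX, leaf FL: inclusion-exclusion and the densities
-/

set_option autoImplicit false

namespace Pool.Agent.N767.EX

open Finset Filter Pool.Agent.H38R2.CG Pool.Agent.N71.EX

lemma prod_one_sub (S : Finset ℕ) (f : ℕ → ℝ) :
    ∏ p ∈ S, (1 - f p) = ∑ E ∈ S.powerset, (-1 : ℝ) ^ E.card * ∏ p ∈ E, f p := by
  have h := Finset.prod_one_add (f := fun p => - f p) S
  simp only [← sub_eq_add_neg] at h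
  rw [h]
  refine sum_congr rfl fun E _ => ?_
  rw [Finset.prod_neg]

open Classical in
/-- inclusion-exclusion -/
lemma incl_excl (S T B : Finset ℕ) (w : ℕ → ℝ) :
    ∑ m ∈ (B.filter fun m => ∀ p ∈ S, ¬ p ∣ m).filter (fun m => ∀ p ∈ T, p ∣ m), w m =
      ∑ E ∈ S.powerset, (-1 : ℝ) ^ E.card *
        ∑ m ∈ B.filter (fun m => ∀ p ∈ T ∪ E, p ∣ m), w m := by
  have h1 : ∀ m : ℕ, (if ∀ p ∈ S, ¬ p ∣ m then (1 : ℝ) else 0) =
      ∑ E ∈ S.powerset, (-1 : ℝ) ^ E.card * if ∀ p ∈ E, p ∣ m then 1 else 0 := by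
    intro m
    have h2 := prod_one_sub S (fun p => if p ∣ m then (1 : ℝ) else 0)
    simp only [Finset.prod_ite_zero, Finset.prod_const_one] at h2
    rw [← h2]
    have h3 : ∀ p ∈ S, (1 - if p ∣ m then (1 : ℝ) else 0) = if ¬ p ∣ m then 1 else 0 := by
      intro p _
      split_ifs <;> simp_all
    rw [Finset.prod_congr rfl h3, Finset.prod_ite_zero, Finset.prod_const_one]
  have h4 : ∀ E : Finset ℕ, ∑ m ∈ B.filter (fun m => ∀ p ∈ T ∪ E, p ∣ m), w m =
      ∑ m ∈ B.filter (fun m => ∀ p ∈ T, p ∣ m), w m * if ∀ p ∈ E, p ∣ m then 1 else 0 := by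
    intro E
    simp only [mul_ite, mul_one, mul_zero]
    rw [← Finset.sum_filter, Finset.filter_filter]
    refine Finset.sum_congr (Finset.filter_congr fun m _ => ?_) fun _ _ => rfl
    constructor
    · intro h
      exact ⟨fun p hp => h p (Finset.mem_union_left _ hp),
        fun p hp => h p (Finset.mem_union_right _ hp)⟩
    · rintro ⟨h, h'⟩ p hp
      rcases Finset.mem_union.1 hp with hp | hp
      · exact h p hp
      · exact h' p hp
  simp only [h4]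
  have h5 : (B.filter fun m => ∀ p ∈ S, ¬ p ∣ m).filter (fun m => ∀ p ∈ T, p ∣ m) =
      (B.filter fun m => ∀ p ∈ T, p ∣ m).filter (fun m => ∀ p ∈ S, ¬ p ∣ m) :=
    Finset.filter_comm _ _ _
  rw [h5, Finset.sum_filter]
  simp only [Finset.mul_sum]
  rw [Finset.sum_comm]
  refine Finset.sum_congr rfl fun m _ => ?_
  have h6 : (if ∀ p ∈ S, ¬ p ∣ m then w m else 0) =
      w m * if ∀ p ∈ S, ¬ p ∣ m then (1 : ℝ) else 0 := by
    split_ifs <;> simp
  rw [h6, h1, Finset.mul_sum]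
  exact Finset.sum_congr rfl fun E _ => by ring

/-- primes -/
lemma prod_sqf (U : Finset ℕ) (hU : ∀ p ∈ U, p.Prime) : Squarefree (∏ p ∈ U, p) := by
  refine Finset.squarefree_prod_of_pairwise_isCoprime (fun p hp q hq hpq => ?_)
    fun p hp => (hU p hp).squarefree
  simp only [Function.onFun]
  rw [← Nat.coprime_iff_isRelPrime]
  exact (Nat.coprime_primes (hU p hp) (hU q hq)).2 hpq

lemma prod_dvd_iff (U : Finset ℕ) (hU : ∀ p ∈ U, p.Prime) (m : ℕ) :
    ∏ p ∈ U, p ∣ m ↔ ∀ p ∈ U, p ∣ m :=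
  ⟨fun h p hp => (Finset.dvd_prod_of_mem _ hp).trans h,
    fun h => Finset.prod_primes_dvd m (fun p hp => (hU p hp).prime) h⟩

lemma chi_abs (D : ℕ) (hD : IsFund D) (n : ℕ) (hn : 1 ≤ n) : |(chi D n : ℝ)| ≤ 1 := by
  obtain ⟨χ, hχ1, hχ⟩ := T_KR D hD
  have h := DirichletCharacter.norm_le_one χ (n : ZMod D)
  rw [hχ n hn, Complex.norm_intCast] at h
  exact_mod_cast h

lemma one_sub_gg (D p : ℕ) : 1 - gg D p = (1 - 1 / (p : ℝ)) * (1 - (chi D p : ℝ) / p) := by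
  unfold gg
  ring

lemma fac_ge (D : ℕ) (hD : IsFund D) (p : ℕ) (hp : p.Prime) :
    (1 - 1 / (p : ℝ)) ^ 2 ≤ 1 - gg D p := by
  rw [one_sub_gg]
  have hp2 : (2 : ℝ) ≤ p := by exact_mod_cast hp.two_le
  have hp0 : (0 : ℝ) < p := by linarith
  have h1 : (chi D p : ℝ) ≤ 1 := (abs_le.1 (chi_abs D hD p hp.one_lt.le)).2
  have h2 : (chi D p : ℝ) / p ≤ 1 / p := div_le_div_of_nonneg_right h1 hp0.le
  have h3 : 0 ≤ 1 - 1 / (p : ℝ) := by
    rw [sub_nonneg, div_le_one hp0]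
    linarith
  rw [pow_two]
  exact mul_le_mul_of_nonneg_left (by linarith) h3

lemma gg_nonneg (D : ℕ) (hD : IsFund D) (p : ℕ) (hp : p.Prime) : 0 ≤ gg D p := by
  have hp2 : (2 : ℝ) ≤ p := by exact_mod_cast hp.two_le
  have hp0 : (0 : ℝ) < p := by linarith
  have h1 : -1 ≤ (chi D p : ℝ) := (abs_le.1 (chi_abs D hD p hp.one_lt.le)).1
  have h2 : -1 / (p : ℝ) ≤ (chi D p : ℝ) / p := div_le_div_of_nonneg_right h1 hp0.le
  have h3 : 0 ≤ 1 - 1 / (p : ℝ) := by
    rw [sub_nonneg, div_le_one hp0]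
    linarith
  have h4 : (1 - 1 / (p : ℝ)) * (1 - (chi D p : ℝ) / p) ≤ (1 - 1 / (p : ℝ)) * (1 + 1 / p) :=
    mul_le_mul_of_nonneg_left (by rw [neg_div] at h2; linarith) h3
  have h5 : (1 - 1 / (p : ℝ)) * (1 + 1 / p) = 1 - (1 / (p : ℝ)) ^ 2 := by ring
  have h6 : 0 ≤ (1 / (p : ℝ)) ^ 2 := by positivity
  unfold gg
  linarith

lemma gg_le (D : ℕ) (hD : IsFund D) (p : ℕ) (hp : p.Prime) : gg D p ≤ 2 / ((p : ℝ) - 1) := by
  have hp2 : (2 : ℝ) ≤ p := by exact_mod_cast hp.two_le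
  have hp0 : (0 : ℝ) < p := by linarith
  have h1 := fac_ge D hD p hp
  have h2 : (1 - 1 / (p : ℝ)) ^ 2 = 1 - 2 / p + (1 / (p : ℝ)) ^ 2 := by ring
  have h3 : 0 ≤ (1 / (p : ℝ)) ^ 2 := by positivity
  have h4 : 2 / (p : ℝ) ≤ 2 / ((p : ℝ) - 1) :=
    div_le_div_of_nonneg_left (by norm_num) (by linarith) (by linarith)
  linarith

lemma VV_eq (D z : ℕ) : VV D z = ∏ p ∈ (Finset.Icc 1 z).filter Nat.Prime, (1 - gg D p) := by
  unfold VV
  exact Finset.prod_congr rfl fun p _ => (one_sub_gg D p).symm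

/-- the product over the primes is at least the product over all integers -/
lemma prod_primes_ge (z : ℕ) (hz : 1 ≤ z) :
    1 / (z : ℝ) ≤ ∏ p ∈ (Finset.Icc 1 z).filter Nat.Prime, (1 - 1 / (p : ℝ)) := by
  have h1 : ∀ n : ℕ, 1 ≤ n → ∏ k ∈ Finset.Icc 2 n, (1 - 1 / (k : ℝ)) = 1 / n := by
    intro n hn
    induction n, hn using Nat.le_induction with
    | base => simp
    | succ n hn ih =>
      rw [← Finset.insert_Icc_right_eq_Icc_add_one (by omega), Finset.prod_insert (by simp), ih]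
      have : (n : ℝ) ≠ 0 := by positivity
      push_cast
      field_simp
      ring
  rw [← h1 z hz]
  have hsub : (Finset.Icc 1 z).filter Nat.Prime ⊆ Finset.Icc 2 z := by
    intro p hp
    rw [Finset.mem_filter, Finset.mem_Icc] at hp
    rw [Finset.mem_Icc]
    exact ⟨hp.2.two_le, hp.1.2⟩
  have hf : ∀ k ∈ Finset.Icc 2 z, 0 ≤ 1 - 1 / (k : ℝ) ∧ 1 - 1 / (k : ℝ) ≤ 1 := by
    intro k hk
    rw [Finset.mem_Icc] at hk
    have hk2 : (2 : ℝ) ≤ k := by exact_mod_cast hk.1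
    constructor
    · rw [sub_nonneg, div_le_one (by linarith)]
      linarith
    · have : 0 ≤ 1 / (k : ℝ) := by positivity
      linarith
  rw [← Finset.prod_sdiff hsub]
  refine mul_le_of_le_one_left (Finset.prod_nonneg fun k hk => (hf k (hsub hk)).1) ?_
  exact Finset.prod_le_one (fun k hk => (hf k (Finset.sdiff_subset hk)).1)
    fun k hk => (hf k (Finset.sdiff_subset hk)).2

end Pool.Agent.N767.EX
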