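import Pool.Agent.N767.EX.FL1
import Pool.Agent.H20R2.EN.FLem

/-!
# Project EX, leaf FL: the sieve
-/

set_option autoImplicit false

namespace Pool.Agent.N767.EX

open Finset Filter Pool.Agent.H38R2.CG Pool.Agent.N71.EX

/-- the primes up to `z` -/
def pr (z : ℕ) : Finset ℕ := (Finset.Icc 1 z).filter Nat.Prime

lemma mem_pr (z p : ℕ) : p ∈ pr z ↔ p.Prime ∧ p ≤ z := by
  unfold pr
  rw [Finset.mem_filter, Finset.mem_Icc]
  constructor
  · rintro ⟨⟨_, h⟩, h'⟩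
    exact ⟨h', h⟩
  · rintro ⟨h, h'⟩
    exact ⟨⟨h.one_lt.le, h'⟩, h⟩

open Classical in
/-- the number of sets of primes with bounded product -/
lemma card_sets (P : Finset ℕ) (hP : ∀ p ∈ P, p.Prime) (N : ℕ) :
    (P.powerset.filter (fun T : Finset ℕ => ∏ p ∈ T, p ≤ N)).card ≤ N := by
  have h1 : ((P.powerset.filter (fun T : Finset ℕ => ∏ p ∈ T, p ≤ N)).image
      fun T => ∏ p ∈ T, p).card = (P.powerset.filter (fun T : Finset ℕ => ∏ p ∈ T, p ≤ N)).card := by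
    apply Finset.card_image_of_injOn
    intro T hT T' hT' h
    have hT1 : ∀ p ∈ T, p.Prime := fun p hp => hP p (Finset.mem_powerset.1
      (Finset.mem_filter.1 hT).1 hp)
    have hT2 : ∀ p ∈ T', p.Prime := fun p hp => hP p (Finset.mem_powerset.1
      (Finset.mem_filter.1 hT').1 hp)
    rw [← Nat.primeFactors_prod hT1, ← Nat.primeFactors_prod hT2]
    exact congrArg Nat.primeFactors h
  rw [← h1]
  calc _ ≤ (Finset.Icc 1 N).card := by
        apply Finset.card_le_card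
        intro n hn
        rw [Finset.mem_image] at hn
        obtain ⟨T, hT, rfl⟩ := hn
        rw [Finset.mem_filter, Finset.mem_powerset] at hT
        rw [Finset.mem_Icc]
        exact ⟨Nat.one_le_iff_ne_zero.2 (Finset.prod_ne_zero_iff.2 fun p hp =>
          (hP p (hT.1 hp)).ne_zero), hT.2⟩
    _ = N := by simp

open Classical in
/-- the sieve -/
lemma sieve (C0 : ℕ)
    (hFL : ∀ (b J z0 : ℕ) (P : Finset ℕ) (g : ℕ → ℝ),
      C0 ≤ b → C0 ≤ z0 → (∀ p ∈ P, p.Prime ∧ z0 < p ∧ p ≤ 2 ^ 2 ^ J) →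
      (∀ p ∈ P, 0 ≤ g p ∧ g p ≤ (2 : ℕ) / ((p : ℝ) - 1)) →
      ∀ (Ω : Finset ℕ) (w : ℕ → ℝ) (hit : ℕ → ℕ → Prop) (A : ℝ) (err : Finset ℕ → ℝ),
        (∀ m ∈ Ω, 0 ≤ w m) → 0 ≤ A →
        (∀ T ⊆ P, ∏ p ∈ T, p ≤ (2 ^ 2 ^ J) ^ (C0 * b) →
          |∑ m ∈ Ω.filter (fun m => ∀ p ∈ T, hit p m), w m - A * ∏ p ∈ T, g p| ≤ err T) →
        |∑ m ∈ Ω.filter (fun m => ∀ p ∈ P, ¬ hit p m), w m - A * ∏ p ∈ P, (1 - g p)| ≤
          (1 / 2 : ℝ) ^ b * (A * ∏ p ∈ P, (1 - g p)) +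
            ((J : ℝ) + 2) *
              ∑ T ∈ P.powerset.filter (fun T : Finset ℕ => ∏ p ∈ T, p ≤ (2 ^ 2 ^ J) ^ (C0 * b)),
                err T)
    (D : ℕ) (hD : IsFund D) (J Y : ℕ) (hz0 : C0 ≤ 2 ^ 2 ^ J) (hL : 0 ≤ Lone D) (E0 : ℝ)
    (hE0 : 0 ≤ E0)
    (hU : ∀ U : Finset ℕ, (∀ p ∈ U, p.Prime) →
      ∏ p ∈ U, p ≤ (2 ^ 2 ^ J) ^ (C0 * (C0 + 3)) * ∏ p ∈ pr C0, p →
      |∑ m ∈ (Finset.Icc 1 Y).filter (fun m => ∀ p ∈ U, p ∣ m), rr D m -
        Lone D * Y * ∏ p ∈ U, gg D p| ≤ E0) :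
    |RN D (2 ^ 2 ^ J) Y - Lone D * VV D (2 ^ 2 ^ J) * Y| ≤
      (1 / 2 : ℝ) ^ (C0 + 3) * (Lone D * VV D (2 ^ 2 ^ J) * Y) +
        ((J : ℝ) + 2) * (((2 ^ 2 ^ J) ^ (C0 * (C0 + 3)) : ℕ) * (2 ^ (pr C0).card * E0)) := by
  obtain ⟨z, hz⟩ : ∃ z, z = 2 ^ 2 ^ J := ⟨_, rfl⟩
  obtain ⟨P, hPd⟩ : ∃ P, P = (pr z).filter (fun p => C0 < p) := ⟨_, rfl⟩
  have hP : ∀ p, p ∈ P ↔ p.Prime ∧ C0 < p ∧ p ≤ z := by
    intro p
    rw [hPd, Finset.mem_filter, mem_pr]
    tauto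
  have hdisj : Disjoint (pr C0) P := by
    rw [Finset.disjoint_left]
    intro p hp hp'
    rw [mem_pr] at hp
    rw [hP] at hp'
    omega
  have hunion : pr z = pr C0 ∪ P := by
    ext p
    rw [Finset.mem_union, mem_pr, mem_pr, hP]
    rw [← hz] at hz0
    constructor
    · rintro ⟨h, h'⟩
      by_cases h2 : p ≤ C0
      · exact Or.inl ⟨h, h2⟩
      · exact Or.inr ⟨h, by omega, h'⟩
    · rintro (⟨h, h'⟩ | ⟨h, h', h2⟩)
      · exact ⟨h, h'.trans hz0⟩
      · exact ⟨h, h2⟩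
  have hVV : VV D C0 * ∏ p ∈ P, (1 - gg D p) = VV D z := by
    rw [VV_eq, VV_eq]
    have h1 : ∏ p ∈ pr z, (1 - gg D p) =
        (∏ p ∈ pr C0, (1 - gg D p)) * ∏ p ∈ P, (1 - gg D p) := by
      rw [hunion, Finset.prod_union hdisj]
    exact h1.symm
  have hVpos : 0 ≤ VV D C0 := by
    rw [VV_eq]
    refine Finset.prod_nonneg fun p hp => ?_
    have := fac_ge D hD p (Finset.mem_filter.1 hp).2
    have h2 : 0 ≤ (1 - 1 / (p : ℝ)) ^ 2 := sq_nonneg _
    linarith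
  have hnn : ∀ m ∈ (Finset.Icc 1 Y).filter (fun m => ∀ p ∈ pr C0, ¬ p ∣ m), 0 ≤ rr D m := by
    intro m hm
    have h1 := (Finset.mem_Icc.1 (Finset.mem_filter.1 hm).1).1
    exact Pool.Agent.N38.BI.div_nonneg' D hD m h1
  have hmain := hFL (C0 + 3) J C0 P (gg D) (by omega) le_rfl
    (fun p hp => by rw [← hz]; exact (hP p).1 hp)
    (fun p hp => ⟨gg_nonneg D hD p ((hP p).1 hp).1, by
      have := gg_le D hD p ((hP p).1 hp).1
      exact_mod_cast this⟩)
    ((Finset.Icc 1 Y).filter (fun m => ∀ p ∈ pr C0, ¬ p ∣ m)) (rr D) (fun p m => p ∣ m)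
    (Lone D * VV D C0 * Y) (fun _ => 2 ^ (pr C0).card * E0) hnn (by positivity) ?_
  · have e2 : Lone D * VV D C0 * Y * ∏ p ∈ P, (1 - gg D p) = Lone D * VV D z * Y := by
      rw [← hVV]
      ring
    rw [e2] at hmain
    rw [← hz] at hmain ⊢
    refine (le_of_eq_of_le ?_ hmain).trans
      (add_le_add le_rfl (mul_le_mul_of_nonneg_left ?_ (by positivity)))
    · refine congrArg abs (congrArg₂ (· - ·) ?_ rfl)
      unfold RN
      refine Finset.sum_congr ?_ fun _ _ => rfl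
      ext m
      simp only [Finset.mem_filter]
      unfold Rough
      constructor
      · rintro ⟨h0, h⟩
        have h3 : ∀ p ∈ pr z, ¬ p ∣ m := by
          intro p hp hpm
          rw [mem_pr] at hp
          have := h p hp.1 hpm
          omega
        rw [hunion] at h3
        exact ⟨⟨h0, fun p hp => h3 p (Finset.mem_union_left _ hp)⟩,
          fun p hp => h3 p (Finset.mem_union_right _ hp)⟩
      · rintro ⟨⟨h0, h⟩, h'⟩
        refine ⟨h0, fun p hp hpm => ?_⟩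
        by_contra hcon
        push Not at hcon
        have h3 : p ∈ pr z := (mem_pr z p).2 ⟨hp, hcon⟩
        rw [hunion, Finset.mem_union] at h3
        rcases h3 with h3 | h3
        · exact h p h3 hpm
        · exact h' p h3 hpm
    · rw [Finset.sum_const, nsmul_eq_mul]
      refine mul_le_mul_of_nonneg_right ?_ (by positivity)
      exact_mod_cast card_sets P (fun p hp => ((hP p).1 hp).1) _
  · intro T hT hTp
    have hTS : ∀ E ⊆ pr C0, Disjoint T E := by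
      intro E hE
      exact (Finset.disjoint_of_subset_left hE (Finset.disjoint_of_subset_right hT hdisj)).symm
    have e1 : Lone D * VV D C0 * Y * ∏ p ∈ T, gg D p = ∑ E ∈ (pr C0).powerset,
        (-1 : ℝ) ^ E.card * (Lone D * Y * ∏ p ∈ T ∪ E, gg D p) := by
      have h1 : VV D C0 = ∑ E ∈ (pr C0).powerset, (-1 : ℝ) ^ E.card * ∏ p ∈ E, gg D p := by
        rw [VV_eq]
        exact prod_one_sub (pr C0) (gg D)
      rw [h1, Finset.mul_sum, Finset.sum_mul, Finset.sum_mul]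
      refine Finset.sum_congr rfl fun E hE => ?_
      rw [Finset.prod_union (hTS E (Finset.mem_powerset.1 hE))]
      ring
    refine le_of_eq_of_le (congrArg abs (congrArg₂ (· - ·)
      ((Finset.sum_congr (by ext m; simp only [Finset.mem_filter]) fun _ _ => rfl).trans
        (incl_excl (pr C0) T (Finset.Icc 1 Y) (rr D))) e1)) ?_
    show |_ - _| ≤ _
    rw [← Finset.sum_sub_distrib]
    refine (Finset.abs_sum_le_sum_abs _ _).trans ?_
    have h2 : ∀ E ∈ (pr C0).powerset, |(-1 : ℝ) ^ E.card *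
        ∑ m ∈ (Finset.Icc 1 Y).filter (fun m => ∀ p ∈ T ∪ E, p ∣ m), rr D m -
        (-1 : ℝ) ^ E.card * (Lone D * Y * ∏ p ∈ T ∪ E, gg D p)| ≤ E0 := by
      intro E hE
      have hE1 := Finset.mem_powerset.1 hE
      rw [← mul_sub, abs_mul, abs_pow, abs_neg, abs_one, one_pow, one_mul]
      refine hU (T ∪ E) (fun p hp => ?_) ?_
      · rcases Finset.mem_union.1 hp with hp | hp
        · exact ((hP p).1 (hT hp)).1
        · exact ((mem_pr C0 p).1 (hE1 hp)).1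
      · rw [Finset.prod_union (hTS E hE1)]
        refine Nat.mul_le_mul hTp ?_
        refine Nat.le_of_dvd (Finset.prod_pos fun p hp => ((mem_pr C0 p).1 hp).1.pos) ?_
        exact Finset.prod_dvd_prod_of_subset _ _ _ hE1
    refine (Finset.sum_le_sum h2).trans ?_
    rw [Finset.sum_const, Finset.card_powerset, nsmul_eq_mul]
    push_cast
    exact le_rfl

end Pool.Agent.N767.EX
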